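import Pool.Agent.H97.PRK.Targets
import Pool.Agent.H3.HD.Iter

/-!
# MP_e37c09_lc, PRK, module CI: intersections of few club sets
-/

open Ordinal Cardinal Order Set

universe u

namespace Pool.Agent.H14.PRK

open _root_.HD _root_.HD.PRK Pool.Agent.H3.HD

theorem pf_CI : _root_.HD.PRK.T_CI.{u} := by
  intro K hK hK0 τ hτ C hC
  have hcof : K.ord.cof = K := hK.cof_ord
  have hρ : ℵ₀ < K.ord.cof := by rw [hcof]; exact hK0
  have hτ' : τ.card < K.ord.cof := by rw [hcof]; exact Cardinal.lt_ord.1 hτ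
  refine ⟨?_, ?_⟩
  · intro a ha
    have hstep : ∀ b < K.ord, ∃ b' < K.ord, b < b' ∧ ∀ i < τ, ∃ c ∈ C i, b < c ∧ c ≤ b' := by
      intro b hb
      have h2 : ∀ i < τ, ∃ c < K.ord, b < c ∧ c ∈ C i := fun i hi => (hC i hi).unb b hb
      choose! c hc using h2
      obtain ⟨s, hs, hs2⟩ := exists_bound hτ' c (fun i hi => (hc i hi).1)
      have hlim : IsSuccLimit K.ord := (Ordinal.one_lt_cof_iff).1 (Cardinal.one_lt_aleph0.trans hρ)
      refine ⟨max s (b + 1), max_lt hs (hlim.add_one_lt hb),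
        lt_of_lt_of_le (_root_.lt_add_one b) (le_max_right _ _), ?_⟩
      intro i hi
      exact ⟨c i, (hc i hi).2.2, (hc i hi).2.1, (hs2 i hi).trans (le_max_left _ _)⟩
    obtain ⟨x, hx, s, hs0, hsx, hsP, hsy⟩ := exists_iter hρ _ hstep a ha
    refine ⟨x, hx, hs0 ▸ hsx 0, ?_⟩
    intro i hi
    refine (hC i hi).cls x hx ((zero_le (a := s 0)).trans_lt (hsx 0)) ?_
    intro y hy
    obtain ⟨n, hn⟩ := hsy y hy
    obtain ⟨c, hc, h3, h4⟩ := hsP n i hi
    exact ⟨c, h4.trans_lt (hsx _), hn.trans h3, hc⟩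
  · intro x hx hx0 h i hi
    refine (hC i hi).cls x hx hx0 ?_
    intro y hy
    obtain ⟨z, hz, hyz, hzC⟩ := h y hy
    exact ⟨z, hz, hyz, hzC i hi⟩

end Pool.Agent.H14.PRK
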