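import Pool.Agent.H97.PRK.Targets

/-!
# MP_e37c09_lc, PRK, module LPX: positivity of classes of small sets is locally definable
-/

open Ordinal Cardinal Order Set
open scoped ZFSet

universe u

namespace Pool.Agent.H14.PRK

open _root_.HD _root_.HD.PRK

/-- `x` has at most `m` elements, at the level of sets -/
def LPXFewZ (m x : ZFSet.{u}) : Prop := ∃ h : ZFSet.{u},
  (∀ p ∈ h, ∃ a ∈ m, ∃ b ∈ x, p = ZFSet.pair a b) ∧
  (∀ i ∈ m, ∀ a ∈ x, ∀ b ∈ x, ZFSet.pair i a ∈ h → ZFSet.pair i b ∈ h → a = b) ∧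
  ∀ z ∈ x, ∃ i ∈ m, ZFSet.pair i z ∈ h

theorem lpx_loc_few (i j : ℕ) : Loc.{u} (fun v => LPXFewZ (v i) (v j)) := by
  refine Loc.ex (R := fun h v => (∀ p ∈ h, ∃ a ∈ v i, ∃ b ∈ v j, p = ZFSet.pair a b) ∧
    (∀ e ∈ v i, ∀ a ∈ v j, ∀ b ∈ v j, ZFSet.pair e a ∈ h → ZFSet.pair e b ∈ h → a = b) ∧
    ∀ z ∈ v j, ∃ e ∈ v i, ZFSet.pair e z ∈ h) ?_ ?_
  · refine (Loc.allMem _ (Loc.exMem _ (Loc.exMem _ (loc_pair 2 1 0)))).and (Loc.and ?_ ?_)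
    · exact Loc.allMem _ (Loc.allMem _ (Loc.allMem _ ((loc_pmem 2 1 3).imp
        ((loc_pmem 2 0 3).imp (Loc.eq 1 0)))))
    · exact Loc.allMem _ (Loc.exMem _ (loc_pmem 0 1 2))
  · rintro η hη v hv h ⟨hh, -⟩
    refine mem_V_of_sub (fun p hp => ?_) (hη.prod (hv i) (hv j))
    obtain ⟨a, ha, b, hb, rfl⟩ := hh p hp
    exact ZFSet.pair_mem_prod.2 ⟨ha, hb⟩

theorem lpx_few_iff {μ ρ : Ordinal.{u}} {x : ZFSet.{u}} (hx : x ⊆ ρ.toZFSet) :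
    LPXFewZ μ.toZFSet x ↔ ∃ g : Ordinal.{u} → Ordinal.{u}, ∀ a : Ordinal.{u}, a.toZFSet ∈ x →
      ∃ i < μ, g i = a := by
  constructor
  · rintro ⟨h, h1, h2, h3⟩
    have key : ∀ i : Ordinal.{u}, ∃ a : Ordinal.{u}, ∀ b : Ordinal.{u}, i < μ → b.toZFSet ∈ x →
        ZFSet.pair i.toZFSet b.toZFSet ∈ h → a = b := by
      intro i
      by_cases hi : ∃ a : Ordinal.{u}, i < μ ∧ a.toZFSet ∈ x ∧
          ZFSet.pair i.toZFSet a.toZFSet ∈ h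
      · obtain ⟨a, hi, ha, hp⟩ := hi
        refine ⟨a, fun b _ hb hq => toZFSet_injective ?_⟩
        exact h2 _ (toZFSet_mem_toZFSet_iff.2 hi) _ ha _ hb hp hq
      · exact ⟨0, fun b h4 h5 h6 => absurd ⟨b, h4, h5, h6⟩ hi⟩
    choose g hg using key
    refine ⟨g, fun a ha => ?_⟩
    obtain ⟨i, hi, hp⟩ := h3 _ ha
    obtain ⟨i, hi', rfl⟩ := mem_toZFSet_iff.1 hi
    exact ⟨i, hi', hg i a hi' ha hp⟩
  · rintro ⟨g, hg⟩
    refine ⟨rs μ ρ (fun i a => a = g i ∧ a.toZFSet ∈ x), ?_, ?_, ?_⟩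
    · intro p hp
      obtain ⟨i, hi, a, -, ⟨-, ha⟩, rfl⟩ := mem_rs.1 hp
      exact ⟨_, toZFSet_mem_toZFSet_iff.2 hi, _, ha, rfl⟩
    · intro i hi a ha b hb hp hq
      obtain ⟨i, hi', rfl⟩ := mem_toZFSet_iff.1 hi
      obtain ⟨a, -, rfl⟩ := mem_toZFSet_iff.1 (hx ha)
      obtain ⟨b, -, rfl⟩ := mem_toZFSet_iff.1 (hx hb)
      obtain ⟨-, -, rfl, -⟩ := pair_mem_rs.1 hp
      obtain ⟨-, -, rfl, -⟩ := pair_mem_rs.1 hq
      rfl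
    · intro z hz
      obtain ⟨a, ha, rfl⟩ := mem_toZFSet_iff.1 (hx hz)
      obtain ⟨i, hi, rfl⟩ := hg a hz
      exact ⟨_, toZFSet_mem_toZFSet_iff.2 hi, pair_mem_rs.2 ⟨hi, ha, rfl, hz⟩⟩

/-- cofinality at most `m`, at the level of sets -/
def LPXCofZ (m z : ZFSet.{u}) : Prop := ∃ n, (n ∈ m ∨ n = m) ∧
  (n.IsOrdinal ∧ z.IsOrdinal ∧ Cf n.rank z.rank)

theorem lpx_loc_cof (i j : ℕ) : Loc.{u} (fun v => LPXCofZ (v i) (v j)) := by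
  refine Loc.ex (R := fun n v => (n ∈ v i ∨ n = v i) ∧
    (n.IsOrdinal ∧ (v j).IsOrdinal ∧ Cf n.rank (v j).rank)) ?_ ?_
  · refine ((Loc.mem _ _).or (Loc.eq _ _)).and ?_
    exact HD.All.la.ren (fun n => if n = 0 then 0 else j + 1)
  · rintro η hη v hv n ⟨hn | rfl, -⟩
    · exact mem_V_of_mem hn (hv i)
    · exact hv i

theorem lpx_cof_iff {μ a : Ordinal.{u}} : LPXCofZ μ.toZFSet a.toZFSet ↔ a.cof.ord ≤ μ := by
  constructor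
  · rintro ⟨n, h1, h2, -, h3⟩
    obtain ⟨ν, rfl⟩ := ord_of h2
    rw [rank_toZFSet, rank_toZFSet] at h3
    have h3 : a.cof.ord = ν := h3
    rw [h3]
    rcases h1 with h1 | h1
    · exact (toZFSet_mem_toZFSet_iff.1 h1).le
    · exact (toZFSet_injective h1).le
  · intro h
    refine ⟨(a.cof.ord).toZFSet, ?_, ZFSet.isOrdinal_toZFSet _, ZFSet.isOrdinal_toZFSet _, ?_⟩
    · rcases lt_or_eq_of_le h with h | h
      · exact Or.inl (toZFSet_mem_toZFSet_iff.2 h)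
      · exact Or.inr (by rw [h])
    · rw [rank_toZFSet, rank_toZFSet]
      rfl

/-- small sets of points of `C`, at the level of sets -/
def LPXSmZ (m C x : ZFSet.{u}) : Prop :=
  (∃ z ∈ x, z = z) ∧ (∀ z ∈ x, z ∈ C ∧ LPXCofZ m z) ∧ LPXFewZ m x

theorem lpx_loc_sm (i j k : ℕ) : Loc.{u} (fun v => LPXSmZ (v i) (v j) (v k)) :=
  (Loc.exMem _ (Loc.eq _ _)).and ((Loc.allMem _ ((Loc.mem _ _).and (lpx_loc_cof _ _))).and
    (lpx_loc_few _ _))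

theorem lpx_pos_iff (μ ρ : Ordinal.{u}) (P : ZFSet.{u} → Prop) : PosX μ ρ P ↔
    ∀ C ⊆ ρ.toZFSet, ClZ ρ.toZFSet C → ∃ x ⊆ ρ.toZFSet, LPXSmZ μ.toZFSet C x ∧ P x := by
  constructor
  · intro h C hC hcl
    obtain ⟨x, hx, hP⟩ := h _ ((ClZ_iff ρ C).1 hcl)
    have hxs : x ⊆ ρ.toZFSet := fun z hz => by
      obtain ⟨a, ha, -, -, rfl⟩ := hx.mem z hz
      exact toZFSet_mem_toZFSet_iff.2 ha
    refine ⟨x, hxs, ⟨?_, ?_, (lpx_few_iff hxs).2 hx.few⟩, hP⟩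
    · obtain ⟨z, hz⟩ := hx.ne
      exact ⟨z, hz, rfl⟩
    · intro z hz
      obtain ⟨a, -, h1, h2, rfl⟩ := hx.mem z hz
      exact ⟨h1, lpx_cof_iff.2 h2⟩
  · intro h C hC
    have hcl : ClZ ρ.toZFSet (os ρ C) := by
      refine (ClZ_iff ρ _).2 ⟨fun a ha => ?_, fun x hx h0 h' => ?_⟩
      · obtain ⟨b, hb, h1, h2⟩ := hC.unb a ha
        exact ⟨b, hb, h1, ord_mem_os.2 ⟨hb, h2⟩⟩
      · refine ord_mem_os.2 ⟨hx, hC.cls x hx h0 fun y hy => ?_⟩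
        obtain ⟨z, hz, h1, h2⟩ := h' y hy
        exact ⟨z, hz, h1, (ord_mem_os.1 h2).2⟩
    obtain ⟨x, hxs, ⟨⟨z, hz, -⟩, h1, h2⟩, hP⟩ := h (os ρ C) (fun z hz => by
      obtain ⟨a, ha, -, rfl⟩ := mem_os.1 hz
      exact toZFSet_mem_toZFSet_iff.2 ha) hcl
    refine ⟨x, ⟨⟨z, hz⟩, fun z hz => ?_, (lpx_few_iff hxs).1 h2⟩, hP⟩
    obtain ⟨h3, h4⟩ := h1 z hz
    obtain ⟨a, ha, haC, rfl⟩ := mem_os.1 h3
    exact ⟨a, ha, haC, lpx_cof_iff.1 h4, rfl⟩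

theorem pf_LPX : T_LPX.{u} := by
  intro P hP i j
  refine Loc.congr (P := fun v => (v i).IsOrdinal ∧ (v j).IsOrdinal ∧ ∀ C ⊆ v j, ClZ (v j) C →
    ∃ x ⊆ v j, LPXSmZ (v i) C x ∧ P x v) ?_ ?_
  · refine (loc_ord i).and ((loc_ord j).and (Loc.allSub _ ((loc_ClZ _ _).imp (Loc.exSub _
      ((lpx_loc_sm (i + 2) 1 0).and ?_)))))
    have := hP.ren (fun n => if n = 0 then 0 else n + 1)
    refine this.congr fun v => ?_
    have e : (fun n => v (n + 1 + 1)) = fun n => v (if n + 1 = 0 then 0 else n + 1 + 1) := by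
      funext n; simp
    rw [e]
    rfl
  · intro v
    refine and_congr_right fun h1 => and_congr_right fun h2 => ?_
    obtain ⟨μ, hμ⟩ := ord_of h1
    obtain ⟨ρ, hρ⟩ := ord_of h2
    rw [hμ, hρ, rank_toZFSet, rank_toZFSet, lpx_pos_iff]

end Pool.Agent.H14.PRK
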